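import Pool.Agent.Y221.PB.Neg

/-!
General type, pseudo-geometric hyperbolicity and degree bounds for the varieties dominated by
systems of high powers.
-/

set_option autoImplicit false
set_option maxHeartbeats 400000
set_option linter.overlappingInstances false
set_option linter.unusedSectionVars false

open FF IntermediateField

namespace Pool.Agent.Y221.PB

open Pool.Agent.W602.GT Pool.Agent.TH466.QG Pool.Agent.Y221.BD
open Pool.Agent.W602.RG (PseudoGeomHyp)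
open Pool.Agent.W619.PQ (IsUniruled)
open Pool.Agent.Y221.AB (NB one_le_NB)
open Pool.Agent.Y216 (OnVar CurveBound pointed_of_bound)

theorem sq_le_ten (s : ℕ) : (s - 1) ^ 2 ≤ 10 ^ s := by
  have h : ∀ s : ℕ, (s + 1) ^ 2 ≤ 10 ^ s := by
    intro s
    induction s with
    | zero => norm_num
    | succ s ih =>
      have h1 : 10 ^ (s + 1) = 10 ^ s * 10 := pow_succ _ _
      rw [h1]
      calc (s + 1 + 1) ^ 2 ≤ (2 * (s + 1)) ^ 2 := Nat.pow_le_pow_left (by omega) 2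
        _ = (s + 1) ^ 2 * 4 := by ring
        _ ≤ (s + 1) ^ 2 * 10 := Nat.mul_le_mul_left _ (by norm_num)
        _ ≤ 10 ^ s * 10 := Nat.mul_le_mul_right _ ih
  refine (Nat.pow_le_pow_left ?_ 2).trans (h s)
  omega

/-- the numerical conditions -/
theorem nums {w r s N ρ : ℕ} (hw : 1 ≤ w) (hρ : 1 ≤ ρ)
    (hN : w * (4 * 10 ^ s * (ρ * r + 1) ^ 7) ≤ N) :
    NB (ρ * r) s ≤ N ∧ (s - 1) ^ 2 ≤ N ∧ w * (4 * 10 ^ s * (r + 1) ^ 7) ≤ N ∧
      r * (w * ((s + 4) * ((s - 1) * (s - 2) / 2))) ≤ N := by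
  obtain ⟨h1, -⟩ := both hw hN
  have h2 : w * (4 * 10 ^ s * (r + 1) ^ 7) ≤ N := by
    refine le_trans (Nat.mul_le_mul_left _ (Nat.mul_le_mul_left _ ?_)) hN
    exact Nat.pow_le_pow_left (by nlinarith) 7
  refine ⟨h1, ?_, h2, (both hw h2).2⟩
  refine (sq_le_ten s).trans (le_trans ?_ h2)
  have h3 : 1 ≤ w * (4 * (r + 1) ^ 7) := Nat.one_le_iff_ne_zero.2 (by positivity)
  calc 10 ^ s ≤ 10 ^ s * (w * (4 * (r + 1) ^ 7)) := Nat.le_mul_of_pos_right _ h3
    _ = w * (4 * 10 ^ s * (r + 1) ^ 7) := by ring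

variable {k : Type} [Field k] [CharZero k] [IsAlgClosed k] {n : ℕ} {ι : Type} [Finite ι]
  {F : ι → MvPolynomial (Fin (n + 1)) k} {s r w N ρ : ℕ}

/-- **Dominated varieties.** -/
theorem dom_all (hF : HighPowers s N F) (hw : 1 ≤ w) (hρ : 1 ≤ ρ)
    (hN : w * (4 * 10 ^ s * (ρ * r + 1) ^ 7) ≤ N) {K : Type} [Field K] [Algebra k K]
    {y : Fin (n + 1) → K} (hy : SubVar F K w y)
    (h : ¬ RatCurve F y ∨ IsComponent F y ∧ ¬ Ruled k K)
    {K' L : Type} [Field K'] [Field L] [Algebra k K'] [Algebra k L]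
    [Algebra K K'] [Algebra L K'] [IsScalarTower k K K'] [IsScalarTower k L K']
    [FiniteDimensional K K'] [FiniteDimensional L K'] (hr : Module.finrank L K' ≤ r)
    {M : ℕ} {x : Fin (M + 1) → L} (hx : x ≠ 0) (hgen : coords k x = ⊤) :
    GeneralType k L w ∧ StronglyGeneral k x ∧ CoverBound k ρ x ∧ PseudoGeomHyp k x := by
  obtain ⟨hN1, hN2, hN3, hN4⟩ := nums hw hρ hN
  have hN0 : 1 ≤ N := (one_le_NB _ s).trans hN1
  obtain ⟨hL, hW⟩ := no_moves hF hy h
  have h1 : StronglyGeneral k x := strong_alg (K' := K') hF hN0 hy hL hW hN4 hr hx hgen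
  have hdim : Algebra.trdeg k L = w := by
    rw [← hy.dim, ← trdeg_alg (E := K) (K := K'), trdeg_alg (E := L) (K := K')]
  have h2 : CoverBound k ρ x := dom_bound (K' := K') hF hN1 hN2 hy hL hW hr hx hgen
  exact ⟨general_of_strongly hx hgen hw hdim h1, h1, h2, pointed_of_bound (h2.curve hρ)⟩

/-- **The equivalences.** -/
theorem dom_tfae (hF : HighPowers s N F) (hw : 1 ≤ w) (hρ : 1 ≤ ρ)
    (hN : w * (4 * 10 ^ s * (ρ * r + 1) ^ 7) ≤ N) {K : Type} [Field K] [Algebra k K]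
    {y : Fin (n + 1) → K} (hy : SubVar F K w y) (hcomp : IsComponent F y)
    {L : Type} [Field L] [Algebra k L] [Algebra L K] [IsScalarTower k L K]
    [FiniteDimensional L K] (hr : Module.finrank L K ≤ r) {M : ℕ} {x : Fin (M + 1) → L}
    (hx : x ≠ 0) (hgen : coords k x = ⊤) :
    [GeneralType k L w, PseudoGeomHyp k x, PseudoBounded k x, CurveBound k x, CoverBound k ρ x,
      StronglyGeneral k x, ¬ IsUniruled k L w, ¬ Ruled k K].TFAE := by
  obtain ⟨hN1, hN2, hN3, hN4⟩ := nums hw hρ hN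
  have hN0 : 1 ≤ N := (one_le_NB _ s).trans hN1
  obtain ⟨h1, h2⟩ := lang_iff hF hN0 hw hy hcomp hN4 hr hx hgen
  tfae_have 1 ↔ 6 := h1
  tfae_have 1 ↔ 7 := h2
  tfae_have 8 → 1 := fun h => (dom_all (K' := K) hF hw hρ hN hy (Or.inr ⟨hcomp, h⟩) hr hx hgen).1
  tfae_have 8 → 5 := fun h =>
    (dom_all (K' := K) hF hw hρ hN hy (Or.inr ⟨hcomp, h⟩) hr hx hgen).2.2.1
  tfae_have 5 → 4 := fun h => h.curve hρ
  tfae_have 4 → 2 := fun h => pointed_of_bound h
  tfae_have 4 → 3 := fun h => bounded_of_curve h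
  tfae_have 2 → 8 := fun h hR => not_geom (fun G hG hGx => rat_of_ruled hR hx hgen hG hGx) h
  tfae_have 3 → 8 := fun h hR => not_bdd (fun G hG hGx => rat_of_ruled hR hx hgen hG hGx) h
  tfae_have 1 → 8 := by
    intro h hR
    have hK : Algebra.EssFiniteType k K := SubVar.ess hy
    obtain ⟨-, h6, -⟩ := neg_below (L := L) hy.dim hR
    exact h6 (psef_of_kodGe (kod_of_general h))
  tfae_finish

end Pool.Agent.Y221.PB
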