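import Pool.Agent.Y221.AH.Sparse
import Pool.Agent.Y221.BD.Mv

/-!
Sparse systems of high powers: the heights of the points which are not moved by diagonal motions.
-/

set_option autoImplicit false
set_option maxHeartbeats 400000
set_option linter.overlappingInstances false
set_option linter.unusedSectionVars false

open FF MvPolynomial Pool.Agent.W603.LV Pool.Agent.W603.PV
open Pool.Agent.Y221.AB (NB)
open Pool.Agent.W603.CX (Pts parts_zero)
open Pool.Agent.W602.GT (IsPowSparse)
open Pool.Agent.Y221.BD (WtMv)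
open Pool.Agent.Y221.AH (eq_blocks)

namespace Pool.Agent.Y221.PB

/-- **Sparse systems: the dichotomy.** -/
theorem sp_dich {n : ℕ} {ι : Type} [Finite ι] {k : Type} [Field k] [IsAlgClosed k] [CharZero k]
    {r s N0 : ℕ} (hN0 : NB r s ≤ N0) (F : ι → MvPolynomial (Fin (n + 1)) k)
    (hF : ∀ i, IsPowSparse ∅ s N0 (F i)) :
    ∃ A : ℕ, ∀ (K E : Type) [Field K] [Field E] [Algebra k K] [Algebra k E] [Algebra K E]
      [IsScalarTower k K E] [FiniteDimensional K E] [IsFF k K] [IsFF k E],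
      Module.finrank K E ≤ r → ∀ f : Fin (n + 1) → E, (∃ j, f j ≠ 0) →
      (∀ i, aeval f (F i) = 0) → ¬ WtMv F f → pht k f ≤ A * max (canDeg k K) 0 := by
  classical
  have := Fintype.ofFinite ι
  have hFh : ∀ i, ∃ d, (F i).IsHomogeneous d := fun i => (hF i).1
  have hFs : ∀ i, (F i).support.card ≤ s := fun i => (hF i).2.1
  have hFN : ∀ i, ∃ N', N0 ≤ N' ∧ ∀ α ∈ (F i).support, ∀ j, N' ∣ α j := fun i => by
    obtain ⟨-, -, N', h1, h2⟩ := hF i
    exact ⟨N', h1, fun α hα j => h2 α hα j (Set.notMem_empty j)⟩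
  choose N hN hdiv using hFN
  obtain ⟨B0, hB0⟩ : ∃ B0 : ℕ,
      B0 = ∑ i, s * (N i * (r * (tri s).toNat)) := ⟨_, rfl⟩
  set Δ : Finset (Fin (n + 1) → ℤ) := Finset.univ.biUnion fun i => Finset.image₂
    (fun α β : Fin (n + 1) →₀ ℕ => fun l => (α l : ℤ) - β l) (F i).support (F i).support with hΔ
  obtain ⟨C1, hC1⟩ : ∃ C1 : ℕ, C1 = ∑ J0 : Finset (Fin (n + 1)), ∑ j, ∑ Q ∈ Δ.powerset,
    cst J0 Q j := ⟨_, rfl⟩
  refine ⟨(n + 1) * (C1 * B0), ?_⟩
  intro K E _ _ _ _ _ _ _ _ _ hr f hfne hfF hno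
  choose e he using hFh
  set χ : ℤ := max (canDeg k K) 0 with hχ
  have hχ0 : 0 ≤ χ := le_max_right _ _
  -- a coordinate to divide by
  obtain ⟨l0, hl0⟩ := hfne
  obtain ⟨f', hf'⟩ : ∃ f' : Fin (n + 1) → E, f' = fun j => (f l0)⁻¹ * f j := ⟨_, rfl⟩
  have hf'0 : ∀ j, f' j = 0 ↔ f j = 0 := by
    intro j
    rw [hf']
    simp [hl0]
  have hf'l0 : f' l0 = 1 := by
    rw [hf']
    exact inv_mul_cancel₀ hl0
  have hf'F : ∀ i, aeval f' (F i) = 0 := by
    intro i
    rw [hf', aeval_scale (he i), hfF i, mul_zero]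
  set J0 : Finset (Fin (n + 1)) := Finset.univ.filter fun j => f' j = 0 with hJ0
  have hf0 : ∀ j ∈ J0, f' j = 0 := fun j hj => (Finset.mem_filter.1 hj).2
  have hf1 : ∀ j, j ∉ J0 → f' j ≠ 0 := fun j hj h =>
    hj (Finset.mem_filter.2 ⟨Finset.mem_univ _, h⟩)
  have hl0J : l0 ∉ J0 := fun h => by
    have := hf0 l0 h
    rw [hf'l0] at this
    exact one_ne_zero this
  set y : Fin (n + 1) → E := fun l => if l ∈ J0 then 1 else f' l with hy
  have hy0 : ∀ l, y l ≠ 0 := by
    intro l
    simp only [hy]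
    split_ifs with h
    · exact one_ne_zero
    · exact hf1 l h
  have hblk := fun i => eq_blocks (K := K) (k := k) hr (F i) (hFs i) (hN0.trans (hN i)) (hdiv i)
    J0 f' hf0 hf1 (hf'F i) y (fun l => rfl)
  choose Qi hQs hQh hQb using hblk
  set Q : Finset (Fin (n + 1) → ℤ) := Finset.univ.biUnion Qi with hQ
  have hQΔ : Q ∈ Δ.powerset := by
    rw [Finset.mem_powerset]
    exact Finset.biUnion_mono fun i _ => hQs i
  have hQ' : ∀ i, ∀ q ∈ Qi i, q ∈ Q := fun i q hq =>
    Finset.mem_biUnion.2 ⟨i, Finset.mem_univ _, hq⟩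
  have hQB : ∀ q ∈ Q, hgt k (mon y q) ≤ B0 * χ := by
    intro q hq
    obtain ⟨i, -, hqi⟩ := Finset.mem_biUnion.1 hq
    refine (hQh i q hqi).trans ?_
    have h1 : ((s * (N i * (r * (tri s).toNat)) : ℕ) : ℤ) ≤ B0 := by
      rw [hB0]
      exact_mod_cast Finset.single_le_sum
        (f := fun i => s * (N i * (r * (tri s).toNat)))
        (fun _ _ => Nat.zero_le _) (Finset.mem_univ i)
    have h2 := mul_le_mul_of_nonneg_right h1 hχ0
    refine le_trans (le_of_eq ?_) h2
    rw [Nat.cast_mul, Nat.cast_mul, Nat.cast_mul, Int.toNat_of_nonneg (tri_nonneg _), hχ]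
    ring
  -- each affine coordinate has small height
  have hcoord : ∀ j, hgt k (f' j) ≤ (C1 * B0 : ℕ) * χ := by
    intro j
    by_cases hj : j ∈ J0
    · rw [hf0 j hj]
      have h1 : hgt k (0 : E) = 0 := by
        rw [hgt_finset (k := k) (0 : E) ∅ (fun P h => absurd P.ord_zero h)]
        rfl
      rw [h1]
      exact mul_nonneg (Nat.cast_nonneg _) hχ0
    · by_cases hjl : j = l0
      · rw [hjl, hf'l0, hgt_one]
        exact mul_nonneg (Nat.cast_nonneg _) hχ0
      have hj1 : j ∉ insert l0 J0 := by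
        rw [Finset.mem_insert, not_or]
        exact ⟨hjl, hj⟩
      rcases dich (insert l0 J0) Q j with ⟨d, c, hd, hc⟩ | ⟨b, hbj, hb0, hbQ⟩
      · have h1 := hgt_le_cst (k := k) hj1 ⟨c, d, hd, hc⟩ hy0
          (fun l hl => by
            rcases Finset.mem_insert.1 hl with rfl | hl
            · simp only [hy, if_neg hl0J, hf'l0]
            · simp only [hy, if_pos hl]) hQB
        have h2 : y j = f' j := by simp only [hy, if_neg hj]
        rw [h2] at h1
        refine h1.trans ?_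
        have h3 : cst (insert l0 J0) Q j ≤ C1 := by
          rw [hC1]
          refine le_trans ?_ (Finset.single_le_sum
            (f := fun J0 : Finset (Fin (n + 1)) => ∑ j, ∑ Q ∈ Δ.powerset, cst J0 Q j)
            (fun _ _ => Nat.zero_le _) (Finset.mem_univ (insert l0 J0)))
          refine le_trans ?_ (Finset.single_le_sum
            (f := fun j => ∑ Q ∈ Δ.powerset, cst (insert l0 J0) Q j) (fun _ _ => Nat.zero_le _)
            (Finset.mem_univ j))
          exact Finset.single_le_sum (f := fun Q => cst (insert l0 J0) Q j)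
            (fun _ _ => Nat.zero_le _) hQΔ
        have h4 : (cst (insert l0 J0) Q j : ℤ) ≤ C1 := by exact_mod_cast h3
        have h5 : (0 : ℤ) ≤ B0 * χ := mul_nonneg (Nat.cast_nonneg _) hχ0
        have h6 := mul_le_mul_of_nonneg_right h4 h5
        refine h6.trans (le_of_eq ?_)
        push_cast; ring
      · exfalso
        apply hno
        have hfj : f j ≠ 0 := fun h => hf1 j hj ((hf'0 j).2 h)
        refine ⟨b, j, l0, hfj, hl0, ?_, fun i v => ?_⟩
        · rw [hb0 l0 (Finset.mem_insert_self _ _)]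
          exact hbj
        · have h1 := hQb i b (fun q hq => hbQ q (hQ' i q hq)) v
          obtain ⟨d, hd⟩ := Pool.Agent.W602.GT.wc_form ⟨e i, he i⟩ b v
          have h2 : aeval f' (Pool.Agent.W602.GT.wc b v (F i)) = 0 := h1
          rw [hf', aeval_scale hd] at h2
          exact (mul_eq_zero.1 h2).resolve_left (pow_ne_zero _ (inv_ne_zero hl0))
  refine (pht_le f hl0).trans ?_
  have h1 : ∀ j, f j / f l0 = f' j := by
    intro j
    rw [hf']
    simp only
    rw [div_eq_inv_mul]
  rw [Finset.sum_congr rfl fun j _ => congrArg (hgt k) (h1 j)]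
  refine (Finset.sum_le_sum fun j _ => hcoord j).trans ?_
  rw [Finset.sum_const, nsmul_eq_mul, Finset.card_univ, Fintype.card_fin]
  push_cast
  exact le_of_eq (by ring)


end Pool.Agent.Y221.PB
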