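import Pool.Agent.Y221.AH.Pow
import Pool.Agent.Y221.BD.Mv

/-!
Sums of powers of linear forms: the heights of the specializations of a generic point which is not
moved by linear motions.
-/

set_option autoImplicit false
set_option maxHeartbeats 400000
set_option linter.overlappingInstances false
set_option linter.unusedSectionVars false

open FF Pool.Agent.W603.LV

namespace Pool.Agent.Y221.PB

open Pool.Agent.W602.GT Pool.Agent.TH466.QG Pool.Agent.Y221.BD Pool.Agent.Y221.AH
open Pool.Agent.W603.PV (warSys exists_flow xi aeval_xi EqSys pht pht_le)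
open Pool.Agent.Y221.AB (NB one_le_NB)

variable {k : Type} [Field k] {n : ℕ} {ι : Type} {s N : ι → ℕ}
  {l : (i : ι) → Fin (s i) → Fin (n + 1) → k}

theorem lin_val {M : Type} [Field M] [Algebra k M] (c : Fin (n + 1) → k) (y : Fin (n + 1) → M) :
    MvPolynomial.aeval y (Pool.Agent.W603.PV.lin c) = lin c y := by
  unfold Pool.Agent.W603.PV.lin Pool.Agent.W602.GT.lin
  rw [map_sum]
  refine Finset.sum_congr rfl fun j _ => ?_
  rw [map_mul, MvPolynomial.algHom_C, MvPolynomial.aeval_X]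

theorem der_of_pow {E : Type} [Field E] [CharZero E] {R : Type} [CommRing R] [Algebra R E]
    (D : Derivation R E E) {a b : E} (hb : b ≠ 0) (ha : a ≠ 0) {d : ℕ} (hd : 0 < d)
    (h : D (a ^ d / b ^ d) = 0) : D a * b = D b * a := by
  rw [← div_pow, Derivation.leibniz_pow] at h
  have h1 : a / b ≠ 0 := div_ne_zero ha hb
  have h2 : D (a / b) = 0 := by
    rw [nsmul_eq_mul, smul_eq_mul] at h
    rcases mul_eq_zero.1 h with h3 | h3
    · exact absurd (Nat.cast_eq_zero.1 h3) hd.ne'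
    · exact (mul_eq_zero.1 h3).resolve_left (pow_ne_zero _ h1)
  have h3 : a = (a / b) * b := by field_simp
  have h4 : D a = (a / b) * D b := by
    conv_lhs => rw [h3]
    rw [D.leibniz, h2, smul_zero, add_zero, smul_eq_mul]
  rw [h4]
  field_simp

theorem lin_D {E : Type} [Field E] [Algebra k E] (D : Derivation k E E) (c : Fin (n + 1) → k)
    (y : Fin (n + 1) → E) : D (lin c y) = lin c fun j => D (y j) := by
  unfold Pool.Agent.W602.GT.lin
  rw [map_sum]
  refine Finset.sum_congr rfl fun j _ => ?_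
  rw [← Algebra.smul_def, D.map_smul, Algebra.smul_def]

theorem lin_hom {E M : Type} [Field E] [Field M] [Algebra k E] [Algebra k M] (φ : E →ₐ[k] M)
    (c : Fin (n + 1) → k) (y : Fin (n + 1) → E) : φ (lin c y) = lin c fun j => φ (y j) := by
  unfold Pool.Agent.W602.GT.lin
  rw [map_sum]
  refine Finset.sum_congr rfl fun j _ => ?_
  rw [map_mul, φ.commutes]

variable [IsAlgClosed k] [CharZero k]

/-- if the system is not rigid, the generic point moves -/
theorem walt_of_not_rigid {K : Type} [Field K] [Algebra k K] {y : Fin (n + 1) → K}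
    (hc : ∀ i (a : Fin (s i)), (fun _ _ => 1 : (i : ι) → Fin (s i) → k) i a ≠ 0)
    (hN0 : ∀ i, 0 < N i) (hN : ∀ i, (s i - 1) ^ 2 ≤ N i)
    {p : Ideal (MvPolynomial (Fin (n + 1)) k)} [p.IsPrime]
    (hpy : ∀ H, H ∈ p ↔ MvPolynomial.aeval y H = 0)
    (hp : ∀ i, ∑ a, MvPolynomial.C ((fun _ _ => 1 : (i : ι) → Fin (s i) → k) i a) *
      Pool.Agent.W603.PV.lin (l i a) ^ N i ∈ p)
    (hE : ¬ (warSys (fun _ _ => 1) l hc hN0 hN p hp).Rigid) {i0 : Fin (n + 1)}
    (hi0 : y i0 ≠ 0) : WAlt l N i0 y := by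
  classical
  obtain ⟨D, R, hR, hsum, hD, j1, m1, hjm⟩ := exists_flow _ hE
  obtain ⟨E0, hE0⟩ : ∃ E0, E0 = FractionRing (MvPolynomial (Fin (n + 1)) k ⧸ p) := ⟨_, rfl⟩
  let θ : (MvPolynomial (Fin (n + 1)) k ⧸ p) →ₐ[k] K :=
    Ideal.Quotient.liftₐ p (MvPolynomial.aeval y) fun H hH => (hpy H).1 hH
  have hθ : ∀ H, θ (Ideal.Quotient.mk p H) = MvPolynomial.aeval y H := fun H =>
    Ideal.Quotient.liftₐ_apply p _ _ _
  have hinj : Function.Injective θ := by
    rw [injective_iff_map_eq_zero]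
    intro a ha
    obtain ⟨H, rfl⟩ := Ideal.Quotient.mk_surjective a
    rw [hθ] at ha
    exact Ideal.Quotient.eq_zero_iff_mem.2 ((hpy H).2 ha)
  let Φ : FractionRing (MvPolynomial (Fin (n + 1)) k ⧸ p) →ₐ[k] K :=
    IsFractionRing.liftAlgHom (g := θ) hinj
  have hΦ : ∀ a, Φ (algebraMap _ _ a) = θ a := fun a => IsFractionRing.lift_algebraMap hinj a
  have hxi : ∀ j, Φ (xi p j) = y j := by
    intro j
    have h1 : Φ (xi p j) = θ (Ideal.Quotient.mk p (MvPolynomial.X j)) := hΦ _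
    rw [h1, hθ, MvPolynomial.aeval_X]
  have hc0 : CharZero (FractionRing (MvPolynomial (Fin (n + 1)) k ⧸ p)) :=
    charZero_of_injective_algebraMap (algebraMap k _).injective
  have hterm : ∀ i a, algebraMap (MvPolynomial (Fin (n + 1)) k ⧸ p)
      (FractionRing (MvPolynomial (Fin (n + 1)) k ⧸ p))
      ((warSys (fun _ _ => 1) l hc hN0 hN p hp).term i a) = lin (l i a) (xi p) ^ N i := by
    intro i a
    have h1 : (warSys (fun _ _ => 1) l hc hN0 hN p hp).term i a = Ideal.Quotient.mk p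
        (MvPolynomial.C 1 * Pool.Agent.W603.PV.lin (l i a) ^ N i) := rfl
    rw [h1, ← aeval_xi, map_mul, MvPolynomial.C_1, map_one, one_mul, map_pow, lin_val]
  have hlin : ∀ c : Fin (n + 1) → k, Φ (lin c (xi p)) = lin c y := by
    intro c
    rw [lin_hom]
    congr 1
    funext j
    exact hxi j
  have hlin0 : ∀ c : Fin (n + 1) → k, lin c y ≠ 0 → lin c (xi p) ≠ 0 := by
    intro c h h0
    apply h
    rw [← hlin, h0, map_zero]
  let u : Fin (n + 1) → K := fun j => Φ (D (xi p j))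
  have hu : ∀ c : Fin (n + 1) → k, lin c u = Φ (D (lin c (xi p))) := by
    intro c
    rw [lin_D, lin_hom]
  let v : Fin (n + 1) → K := fun j => 1 * u j + (-(u i0 / y i0)) * y j
  have hv : ∀ c : Fin (n + 1) → k, lin c v = lin c u - u i0 / y i0 * lin c y := by
    intro c
    simp only [v]
    rw [Pool.Agent.W602.GT.lin_add_smul]
    ring
  refine ⟨fun e i j => R e i.1 j.1, v, fun e => ⟨fun i => (hR e).refl _, fun h => (hR e).symm h,
    fun h h' => (hR e).trans h h'⟩, ?_, ?_, ?_, ?_, ?_⟩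
  · intro e j0 A hA
    have h1 := congrArg Φ (hsum e j0.1)
    rw [map_sum, map_zero] at h1
    have h2 : ∀ b, Φ (algebraMap (MvPolynomial (Fin (n + 1)) k ⧸ p)
        (FractionRing (MvPolynomial (Fin (n + 1)) k ⧸ p))
        ((warSys (fun _ _ => 1) l hc hN0 hN p hp).term e b)) = lin (l e b) y ^ N e := by
      intro b
      rw [hterm, map_pow, hlin]
    rw [Finset.sum_congr rfl fun b _ => h2 b] at h1
    have h3 : ∑ j ∈ A, lin (l e j.1) y ^ N e =
        ∑ j ∈ A.map (Function.Embedding.subtype _), lin (l e j) y ^ N e := by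
      rw [Finset.sum_map]
      rfl
    refine h3.trans (Eq.trans ?_ h1)
    refine Finset.sum_subset ?_ ?_
    · intro j hj
      rw [Finset.mem_map] at hj
      obtain ⟨j', hj', rfl⟩ := hj
      rw [Finset.mem_filter]
      exact ⟨Finset.mem_univ _, (hA j').1 hj'⟩
    · intro j hj hjA
      by_contra h0
      have hj0 : lin (l e j) y ≠ 0 := fun h => h0 (by rw [h, zero_pow (hN0 e).ne'])
      apply hjA
      rw [Finset.mem_map]
      exact ⟨⟨j, hj0⟩, (hA _).2 (Finset.mem_filter.1 hj).2, rfl⟩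
  · simp only [v]
    field_simp
    ring
  · intro h0
    apply hjm
    apply Φ.toRingHom.injective
    change Φ _ = Φ _
    rw [map_mul, map_mul, hxi, hxi]
    have h1 := congrFun h0 j1
    have h2 := congrFun h0 m1
    simp only [v, Pi.zero_apply] at h1 h2
    change u j1 * y m1 = u m1 * y j1
    linear_combination y m1 * h1 - y j1 * h2
  · intro e j hj
    have h1 : lin (l e j) (xi p) = 0 := by
      apply Φ.toRingHom.injective
      change Φ _ = Φ _
      rw [hlin, hj, map_zero]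
    rw [hv, hu, h1, map_zero, map_zero, hj, mul_zero, sub_zero]
  · intro e i j hij
    have h1 := hD e i.1 j.1 hij
    rw [hterm, hterm] at h1
    have h2 := der_of_pow D (hlin0 _ j.2) (hlin0 _ i.2) (hN0 e) h1
    have h3 := congrArg Φ h2
    rw [map_mul, map_mul, hlin, hlin, ← hu, ← hu] at h3
    rw [hv, hv]
    linear_combination h3

/-- the identity -/
def idSp (k K : Type) [Field k] [Field K] [Algebra k K] : Sp k K K where
  T x x' := x = x'
  add h h' := by rw [h, h']
  mul h h' := by rw [h, h']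
  const c := rfl
  uniq h := h.symm

/-- **Sums of powers: heights of the specializations.** -/
theorem war_bound [Finite ι] {F : ι → MvPolynomial (Fin (n + 1)) k}
    (hN0 : ∀ e, 0 < N e) (hN : ∀ e, (s e - 1) ^ 2 ≤ N e)
    (hFe : ∀ e, F e = ∑ j, (∑ i, MvPolynomial.C (l e j i) * MvPolynomial.X i) ^ N e)
    {K : Type} [Field K] [Algebra k K] {y : Fin (n + 1) → K} (hyF : ∀ e, val y (F e) = 0)
    {i0 : Fin (n + 1)} (hi0 : y i0 ≠ 0) (hL : ¬ LinMv F y) :
    ∃ G : MvPolynomial (Fin (n + 1)) k, val y G ≠ 0 ∧ ∃ B : ℕ, ∀ (L : Type) [Field L]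
      [Algebra k L] [IsFF k L] (f : Fin (n + 1) → L),
      (∀ H : MvPolynomial (Fin (n + 1)) k, val y H = 0 → val f H = 0) → val f G ≠ 0 →
      ∀ X : ℤ, 0 ≤ X → BP (tm (fun _ _ => 1) l N) f X → pht k f ≤ B * X := by
  classical
  obtain ⟨p, hpd⟩ : ∃ p, p = RingHom.ker
      (MvPolynomial.aeval y : MvPolynomial (Fin (n + 1)) k →ₐ[k] K) := ⟨_, rfl⟩
  have hpp : p.IsPrime := hpd ▸ RingHom.ker_isPrime _
  have hpy : ∀ H, H ∈ p ↔ MvPolynomial.aeval y H = 0 := fun H => by rw [hpd, RingHom.mem_ker]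
  have hc : ∀ i (a : Fin (s i)), (fun _ _ => 1 : (i : ι) → Fin (s i) → k) i a ≠ 0 :=
    fun _ _ => one_ne_zero
  have hp : ∀ i, ∑ a, MvPolynomial.C ((fun _ _ => 1 : (i : ι) → Fin (s i) → k) i a) *
      Pool.Agent.W603.PV.lin (l i a) ^ N i ∈ p := by
    intro i
    rw [hpy]
    have h1 : ∑ a, MvPolynomial.C ((fun _ _ => 1 : (i : ι) → Fin (s i) → k) i a) *
        Pool.Agent.W603.PV.lin (l i a) ^ N i = F i := by
      rw [hFe]
      refine Finset.sum_congr rfl fun a _ => ?_
      rw [MvPolynomial.C_1, one_mul]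
      rfl
    rw [h1]
    exact hyF i
  have hE : (warSys (fun _ _ => 1) l hc hN0 hN p hp).Rigid := by
    by_contra hE
    obtain ⟨Θ, -, h⟩ := open_warA (r := s) (d := N) (l := l) hN0 hFe hyF hi0 hL
    exact (h K (idSp k K) (fun ϑ _ => ⟨ϑ, rfl⟩) y (fun i => rfl)).2.2
      (walt_of_not_rigid hc hN0 hN hpy hp hE hi0)
  obtain ⟨G, hG, B, h⟩ := proj_core hc hN0 hN hp hE ⟨i0, fun h0 => hi0 (by
    have := (hpy _).1 h0
    rwa [MvPolynomial.aeval_X] at this)⟩
  exact ⟨G, fun h0 => hG ((hpy G).2 h0), B, fun L _ _ _ f hf hfG =>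
    h L f (fun H hH => hf H ((hpy H).1 hH)) hfG⟩

end Pool.Agent.Y221.PB
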