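import Pool.Agent.Y221.PB.Hgt
import Pool.Agent.Y221.PB.War
import Pool.Agent.Y221.PB.Spr
import Pool.Agent.Y221.AH.Im
import Pool.Agent.Y221.BD.Top
import Pool.Agent.Y216.Point

/-!
Linear degree bounds for the curves, and for the coverings of curves, in the varieties which are
dominated by the covers of a variety given by high powers.
-/

set_option autoImplicit false
set_option maxHeartbeats 400000
set_option linter.overlappingInstances false
set_option linter.unusedSectionVars false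

open FF Pool.Agent.W603.LV

namespace Pool.Agent.Y221.PB

open Pool.Agent.W602.GT Pool.Agent.TH466.QG Pool.Agent.Y221.BD Pool.Agent.Y221.AH
open Pool.Agent.W603.PV (pht pht_le)
open Pool.Agent.Y221.AB (NB one_le_NB)
open Pool.Agent.Y216 (OnVar CurveBound)

/-- Outside a proper closed subset of the projective variety with generic point `x`, the degree of
every morphism to the variety from a covering of degree at most `ρ` of a smooth projective curve `C`
(with function field `K`) is at most `A max (2 g (C) - 2, 0)`. -/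
def CoverBound (k : Type) [Field k] {L : Type} [Field L] [Algebra k L] {M : ℕ} (ρ : ℕ)
    (x : Fin (M + 1) → L) : Prop :=
  ∃ G : MvPolynomial (Fin (M + 1)) k, IsForm G ∧ val x G ≠ 0 ∧ ∃ A : ℕ,
    ∀ (K E : Type) [Field K] [Field E] [Algebra k K] [Algebra k E] [Algebra K E]
      [IsScalarTower k K E] [FiniteDimensional K E] [IsFF k K] [IsFF k E],
      Module.finrank K E ≤ ρ → ∀ f : Fin (M + 1) → E, OnVar k x f → val f G ≠ 0 →
      pht k f ≤ A * max (canDeg k K) 0

variable {k : Type} [Field k] [IsAlgClosed k] [CharZero k] {n : ℕ} {ι : Type}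

theorem CoverBound.curve {L : Type} [Field L] [Algebra k L] {M ρ : ℕ} {x : Fin (M + 1) → L}
    (hρ : 1 ≤ ρ) (h : CoverBound k ρ x) : CurveBound k x := by
  obtain ⟨G, hG, hGx, A, hA⟩ := h
  exact ⟨G, hG, hGx, A, fun K _ _ _ f hf hfG =>
    hA K K (by rw [Module.finrank_self]; exact hρ) f hf hfG⟩

/-- heights of the specializations of a generic point without motions -/
theorem key_bound [Finite ι] {F : ι → MvPolynomial (Fin (n + 1)) k} {s N R : ℕ}
    (hF : HighPowers s N F) (hN : NB R s ≤ N) (hsq : (s - 1) ^ 2 ≤ N)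
    {K : Type} [Field K] [Algebra k K] {y : Fin (n + 1) → K} (hyF : ∀ e, val y (F e) = 0)
    {i0 : Fin (n + 1)} (hi0 : y i0 ≠ 0) (hL : ¬ LinMv F y) (hW : ¬ WtMv F y) :
    ∃ (Θ : Set K) (A : ℕ), Θ.Finite ∧ ∀ (K0 K'' : Type) [Field K0] [Field K''] [Algebra k K0]
      [Algebra k K''] [Algebra K0 K''] [IsScalarTower k K0 K''] [FiniteDimensional K0 K'']
      [IsFF k K0] [IsFF k K''], Module.finrank K0 K'' ≤ R → ∀ S : Sp k K K'',
      (∀ ϑ ∈ Θ, ∃ t, S.T ϑ t) → ∀ y' : Fin (n + 1) → K'', (∀ i, S.T (y i) (y' i)) →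
      pht k y' ≤ A * max (canDeg k K0) 0 := by
  classical
  have := Fintype.ofFinite ι
  have hN1 : 1 ≤ N := (one_le_NB R s).trans hN
  rcases hF with h | h
  · choose r d l hr hd hFe using h
    have hd0 : ∀ e, 0 < d e := fun e => lt_of_lt_of_le hN1 (hd e)
    have hsq' : ∀ e, (r e - 1) ^ 2 ≤ d e := fun e =>
      (Nat.pow_le_pow_left (by have := hr e; omega) 2).trans (hsq.trans (hd e))
    have hNB : ∀ e, NB R (r e) ≤ d e := fun e => ((NB_mono (hr e)).trans hN).trans (hd e)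
    obtain ⟨G, hG, B, hB⟩ := war_bound (s := r) (N := d) (l := l) hd0 hsq' hFe hyF hi0 hL
    obtain ⟨B0, hB0⟩ : ∃ B0 : ℕ, B0 = ∑ i, r i * (d i * (R * (tri (r i)).toNat)) := ⟨_, rfl⟩
    refine ⟨{(val y G)⁻¹}, B * B0, Set.finite_singleton _, ?_⟩
    intro K0 K'' _ _ _ _ _ _ _ _ _ hrk S hS y' hy'
    set χ : ℤ := max (canDeg k K0) 0 with hχ
    have hχ0 : 0 ≤ χ := le_max_right _ _
    have hBχ : 0 ≤ (B0 : ℤ) * χ := mul_nonneg (Nat.cast_nonneg _) hχ0
    have h1 := hB K'' y' (fun H hH => S.eq_zero (S.val hy' H) hH)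
      (S.ne_zero (S.val hy' G) (hS _ rfl) hG) (B0 * χ) hBχ (by
      intro i P _ hP hsum
      obtain ⟨R', hR1, hR2, hR3⟩ := blocks (K := K0) (k := k) hrk (s := r i) (by
          have := Fintype.card_subtype_le P
          rwa [Fintype.card_fin] at this) (hNB i)
        (fun a : {a // P a} => MvPolynomial.aeval y' (tm (fun _ _ => 1) l d i a))
        (fun a => hP a a.2) hsum
        (fun a => ⟨1, MvPolynomial.aeval y' (Pool.Agent.W603.PV.lin (l i a)), by
          unfold tm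
          rw [map_mul, map_pow, MvPolynomial.algHom_C]⟩)
      refine ⟨R', hR1, fun a b hab => (hR2 a b hab).trans ?_, hR3⟩
      have h2 : ((r i * (d i * (R * (tri (r i)).toNat)) : ℕ) : ℤ) ≤ B0 := by
        rw [hB0]
        exact_mod_cast Finset.single_le_sum
          (f := fun i => r i * (d i * (R * (tri (r i)).toNat)))
          (fun _ _ => Nat.zero_le _) (Finset.mem_univ i)
      refine le_trans (le_of_eq ?_) (mul_le_mul_of_nonneg_right h2 hχ0)
      rw [Nat.cast_mul, Nat.cast_mul, Nat.cast_mul, Int.toNat_of_nonneg (tri_nonneg _)]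
      ring)
    refine h1.trans (le_of_eq ?_)
    push_cast
    ring
  · obtain ⟨A, hA⟩ := sp_dich hN F h
    obtain ⟨Θ, hΘ, hopen⟩ := open_spA hyF hi0 hW
    refine ⟨Θ, A, hΘ, ?_⟩
    intro K0 K'' _ _ _ _ _ _ _ _ _ hrk S hS y' hy'
    obtain ⟨h1, h2, h3⟩ := hopen K'' S hS y' hy'
    exact hA K0 K'' hrk y' ⟨i0, h1⟩ h2 h3

/-- **Degree bounds for dominated varieties.** -/
theorem dom_bound [Finite ι] {F : ι → MvPolynomial (Fin (n + 1)) k} {s N ρ r : ℕ}
    (hF : HighPowers s N F) (hN : NB (ρ * r) s ≤ N) (hsq : (s - 1) ^ 2 ≤ N)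
    {K : Type} [Field K] [Algebra k K] {w : ℕ} {y : Fin (n + 1) → K} (hy : SubVar F K w y)
    (hL : ¬ LinMv F y) (hW : ¬ WtMv F y)
    {K' L : Type} [Field K'] [Field L] [Algebra k K'] [Algebra k L] [Algebra K K']
    [Algebra L K'] [IsScalarTower k K K'] [IsScalarTower k L K'] [Algebra.IsAlgebraic K K']
    [FiniteDimensional L K'] (hr : Module.finrank L K' ≤ r) {M : ℕ} {x : Fin (M + 1) → L}
    (hx : x ≠ 0) (hgen : coords k x = ⊤) : CoverBound k ρ x := by
  classical
  obtain ⟨i1, hi1'⟩ := Function.ne_iff.1 hx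
  have hi1 : x i1 ≠ 0 := hi1'
  obtain ⟨i0, hi0'⟩ := Function.ne_iff.1 hy.ne
  have hi0 : y i0 ≠ 0 := hi0'
  obtain ⟨Θ1, A, hΘ1, hkey⟩ := key_bound hF hN hsq hy.mem hi0 hL hW
  obtain ⟨Θ2, C, hΘ2, halgs⟩ := alg_hgt (K' := K') hy.gen hi0
    (fun m => algebraMap L K' (x m / x i1))
  obtain ⟨H, hH, hspread⟩ := spread (K' := K') (adjoin_norm hgen hi1)
    (Θ := algebraMap K K' '' (Θ1 ∪ (Θ2 ∪ Set.range y)))
    ((hΘ1.union (hΘ2.union (Set.finite_range y))).image _)
  refine ⟨MvPolynomial.X i1 * hz i1 H, ?_, ?_, (M + 1) * (C * A), ?_⟩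
  · obtain ⟨d, hd⟩ := hz_form i1 H
    exact ⟨1 + d, (MvPolynomial.isHomogeneous_X k i1).mul hd⟩
  · change MvPolynomial.aeval x _ ≠ 0
    rw [map_mul, MvPolynomial.aeval_X]
    refine mul_ne_zero hi1 ?_
    change val x _ ≠ 0
    rw [val_hz H hi1]
    exact mul_ne_zero (pow_ne_zero _ hi1) hH
  intro K0 E _ _ _ _ _ _ _ _ _ hρ z hz hzR
  change MvPolynomial.aeval z _ ≠ 0 at hzR
  rw [map_mul, MvPolynomial.aeval_X] at hzR
  have hz1 : z i1 ≠ 0 := left_ne_zero_of_mul hzR
  have hzH : MvPolynomial.aeval (fun i => z i / z i1) H ≠ 0 := by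
    have h1 : val z (Pool.Agent.TH466.QG.hz i1 H) ≠ 0 := right_ne_zero_of_mul hzR
    rw [val_hz H hz1] at h1
    exact right_ne_zero_of_mul h1
  have hsp : ∀ G : MvPolynomial (Fin (M + 1)) k,
      MvPolynomial.aeval (fun i => x i / x i1) G = 0 →
      MvPolynomial.aeval (fun i => z i / z i1) G = 0 := by
    intro G hG
    have h1 : val x (Pool.Agent.TH466.QG.hz i1 G) = 0 := by
      rw [val_hz G hi1, hG, mul_zero]
    have h2 := hz.2 _ (hz_form i1 G) h1
    rw [val_hz G hz1] at h2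
    exact (mul_eq_zero.1 h2).resolve_left (pow_ne_zero _ hz1)
  obtain ⟨K'', i1', i2', i3', i4', i5', hrk, S, hSx, hSΘ⟩ := hspread E
    (fun i => z i / z i1) hsp hzH
  have hSy : ∀ i, ∃ t, S.T (algebraMap K K' (y i)) t := fun i =>
    hSΘ _ ⟨y i, Or.inr (Or.inr ⟨i, rfl⟩), rfl⟩
  choose y' hy' using hSy
  have hff : IsFF k K'' := Pool.Agent.W603.PV.isFF_of_finite (F := E)
  let iA : Algebra K0 K'' := ((algebraMap E K'').comp (algebraMap K0 E)).toAlgebra
  have iT1 : IsScalarTower K0 E K'' := IsScalarTower.of_algebraMap_eq fun _ => rfl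
  have iT2 : IsScalarTower k K0 K'' := IsScalarTower.of_algebraMap_eq fun c => by
    change _ = algebraMap E K'' (algebraMap K0 E (algebraMap k K0 c))
    rw [← IsScalarTower.algebraMap_apply k K0 E, ← IsScalarTower.algebraMap_apply k E K'']
  have iF : FiniteDimensional K0 K'' := FiniteDimensional.trans K0 E K''
  have hfr : Module.finrank K0 K'' ≤ ρ * r := by
    rw [← Module.finrank_mul_finrank K0 E K'']
    exact Nat.mul_le_mul hρ (hrk.trans hr)
  have h1 := hkey K0 K'' hfr (S.res (K0 := K)) (fun ϑ hϑ => hSΘ _ ⟨ϑ, Or.inl hϑ, rfl⟩) y' hy'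
  have h2 : ∀ m, hgt k (algebraMap E K'' (z m / z i1)) ≤ C * pht k y' := fun m =>
    halgs K'' S (fun ϑ hϑ => hSΘ _ ⟨ϑ, Or.inr (Or.inl hϑ), rfl⟩) y' hy' _ hSx m
  have hz0 : ∃ j, z j ≠ 0 := ⟨i1, hz1⟩
  have hz1' : algebraMap E K'' (z i1) ≠ 0 := by rwa [Ne, map_eq_zero]
  have h3 : pht k (fun j => algebraMap E K'' (z j)) ≤ (M + 1) * (C * pht k y') := by
    refine (pht_le (fun j => algebraMap E K'' (z j)) hz1').trans ?_
    have h4 : ∀ j, hgt k (algebraMap E K'' (z j) / algebraMap E K'' (z i1)) ≤ C * pht k y' := by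
      intro j
      rw [← map_div₀]
      exact h2 j
    refine (Finset.sum_le_sum fun j _ => h4 j).trans (le_of_eq ?_)
    rw [Finset.sum_const, nsmul_eq_mul, Finset.card_univ, Fintype.card_fin]
    push_cast
    ring
  rw [pht_algebraMap hz0] at h3
  have h5 : 0 ≤ pht k z := pht_nonneg hz0
  have h6 : (1 : ℤ) ≤ Module.finrank E K'' := by exact_mod_cast Module.finrank_pos
  have h7 : pht k z ≤ Module.finrank E K'' * pht k z := by nlinarith
  refine (h7.trans h3).trans ?_
  have h8 : (C : ℤ) * pht k y' ≤ C * (A * max (canDeg k K0) 0) :=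
    mul_le_mul_of_nonneg_left h1 (Nat.cast_nonneg _)
  have h9 := mul_le_mul_of_nonneg_left h8 (by positivity : (0 : ℤ) ≤ (M : ℤ) + 1)
  refine h9.trans (le_of_eq ?_)
  push_cast
  ring

end Pool.Agent.Y221.PB
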