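import Pool.Agent.TH466.QG.Strong
import Pool.Agent.W603.LV.Root
import Pool.Agent.W603.CX.Basic

/-!
Heights of the specializations of algebraic elements.
-/

set_option autoImplicit false
set_option maxHeartbeats 400000
set_option linter.overlappingInstances false
set_option linter.unusedSectionVars false

open FF IntermediateField Pool.Agent.W603.LV Pool.Agent.W603.PV

namespace Pool.Agent.Y221.PB

open Pool.Agent.W602.GT Pool.Agent.TH466.QG
open Pool.Agent.W603.CX (hgt_le_pht)

/-- The heights of the specializations of elements which are algebraic over the function field are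
bounded linearly by the height of the specialization of the generic point. -/
theorem alg_hgt {k K K' : Type} [Field k] [CharZero k] [IsAlgClosed k] [Field K] [Field K']
    [Algebra k K] [Algebra k K'] [Algebra K K'] [IsScalarTower k K K']
    [Algebra.IsAlgebraic K K'] {n : ℕ}
    {y : Fin (n + 1) → K} (hgen : coords k y = ⊤) {i0 : Fin (n + 1)} (hi0 : y i0 ≠ 0)
    {σ : Type} [Fintype σ] (x : σ → K') : ∃ (Θ : Set K) (C : ℕ), Θ.Finite ∧
      ∀ (K'' : Type) [Field K''] [Algebra k K''] [IsFF k K''] (S : Sp k K' K''),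
        (∀ ϑ ∈ Θ, ∃ t, S.T (algebraMap K K' ϑ) t) → ∀ y' : Fin (n + 1) → K'',
        (∀ i, S.T (algebraMap K K' (y i)) (y' i)) → ∀ z : σ → K'', (∀ m, S.T (x m) (z m)) →
        ∀ m, hgt k (z m) ≤ C * pht k y' := by
  classical
  have hfin : (⋃ m, (↑(minpoly K (x m)).coeffs : Set K)).Finite :=
    Set.finite_iUnion fun m => Finset.finite_toSet _
  obtain ⟨H, hH, hG⟩ := exists_den (adjoin_norm hgen hi0) hfin
  -- the coefficients
  have hco : ∀ (m : σ) (j : ℕ), ∃ G : MvPolynomial (Fin (n + 1)) k,
      (minpoly K (x m)).coeff j * MvPolynomial.aeval (fun i => y i / y i0) H =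
        MvPolynomial.aeval (fun i => y i / y i0) G := by
    intro m j
    by_cases h0 : (minpoly K (x m)).coeff j = 0
    · exact ⟨0, by rw [h0, zero_mul, map_zero]⟩
    · exact hG _ (Set.mem_iUnion.2 ⟨m, Polynomial.coeff_mem_coeffs h0⟩)
  choose G hG' using hco
  let D : σ → ℕ := fun m => (minpoly K (x m)).natDegree
  let C : ℕ := ∑ m, ∑ j ∈ Finset.range (D m + 1), (G m j).totalDegree * (n + 1)
  refine ⟨{(y i0)⁻¹, (MvPolynomial.aeval (fun i => y i / y i0) H)⁻¹}, C, Set.toFinite _, ?_⟩
  intro K'' _ _ _ S hS y' hy z hxz m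
  let S0 : Sp k K K'' := S.res
  have hS1 : ∃ t, S0.T (y i0)⁻¹ t := hS _ (Or.inl rfl)
  have hS2 : ∃ t, S0.T (MvPolynomial.aeval (fun i => y i / y i0) H)⁻¹ t := hS _ (Or.inr rfl)
  have hy0 : ∀ i, S0.T (y i) (y' i) := hy
  have hi0' : y' i0 ≠ 0 := S0.ne_zero (hy0 i0) hS1 hi0
  have hybar : ∀ i, S0.T (y i / y i0) (y' i / y' i0) := by
    intro i
    rw [div_eq_mul_inv, div_eq_mul_inv]
    exact S0.mul (hy0 i) (S0.inv (hy0 i0) hS1 hi0)
  have hval : ∀ G : MvPolynomial (Fin (n + 1)) k,
      S0.T (MvPolynomial.aeval (fun i => y i / y i0) G)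
        (MvPolynomial.aeval (fun i => y' i / y' i0) G) := fun G => S0.val hybar G
  have hH' : MvPolynomial.aeval (fun i => y' i / y' i0) H ≠ 0 := S0.ne_zero (hval H) hS2 hH
  have hint : IsIntegral K (x m) := Algebra.IsIntegral.isIntegral _
  -- the equation of `z m`
  have hlead : MvPolynomial.aeval (fun i => y' i / y' i0) (G m (D m)) ≠ 0 := by
    have h1 := hG' m (D m)
    rw [(minpoly.monic hint).coeff_natDegree, one_mul] at h1
    have h2 := hval H
    rw [h1] at h2
    rw [S0.ext (hval (G m (D m))) h2]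
    exact hH'
  have hrel : ∑ d ∈ Finset.range (D m + 1),
      MvPolynomial.aeval (fun i => y' i / y' i0) (G m d) * z m ^ d = 0 := by
    have h1 : ∑ d ∈ Finset.range (D m + 1),
        algebraMap K K' (MvPolynomial.aeval (fun i => y i / y i0) (G m d)) * x m ^ d = 0 := by
      have h2 : Polynomial.aeval (x m) (minpoly K (x m)) = 0 := minpoly.aeval K (x m)
      rw [Polynomial.aeval_eq_sum_range] at h2
      have h3 : ∑ d ∈ Finset.range (D m + 1),
          algebraMap K K' (MvPolynomial.aeval (fun i => y i / y i0) (G m d)) * x m ^ d =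
          algebraMap K K' (MvPolynomial.aeval (fun i => y i / y i0) H) *
            ∑ d ∈ Finset.range (D m + 1), (minpoly K (x m)).coeff d • x m ^ d := by
        rw [Finset.mul_sum]
        refine Finset.sum_congr rfl fun d _ => ?_
        rw [← hG', map_mul, Algebra.smul_def]
        ring
      rw [h3]
      have h4 : ∑ d ∈ Finset.range (D m + 1), (minpoly K (x m)).coeff d • x m ^ d = 0 := h2
      rw [h4, mul_zero]
    refine S.eq_zero (S.sum _ fun d _ => S.mul ?_ (S.pow (hxz m) d)) h1
    exact hval (G m d)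
  have h1 := hgt_root (k := k) (fun d => MvPolynomial.aeval (fun i => y' i / y' i0) (G m d)) hlead
    (z m) hrel
  have hcoord : ∀ i, hgt k (y' i / y' i0) ≤ pht k y' := by
    intro i
    by_cases h0 : y' i = 0
    · rw [h0, zero_div, hgt_zero]
      have h2 := hgt_le_pht (k := k) y' hi0' hi0'
      rw [div_self hi0', hgt_one] at h2
      exact h2
    · exact hgt_le_pht (k := k) y' h0 hi0'
  have hpoly : ∀ d, hgt k (MvPolynomial.aeval (fun i => y' i / y' i0) (G m d)) ≤
      ((G m d).totalDegree * (n + 1) : ℕ) * pht k y' := by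
    intro d
    refine (hgt_mvpoly (k := k) (fun i => y' i / y' i0) (G m d)).trans ?_
    have h2 : ∑ a, hgt k (y' a / y' i0) ≤ ((n + 1 : ℕ) : ℤ) * pht k y' := by
      refine (Finset.sum_le_sum fun a _ => hcoord a).trans (le_of_eq ?_)
      rw [Finset.sum_const, Finset.card_univ, Fintype.card_fin, nsmul_eq_mul]
    have h3 := mul_le_mul_of_nonneg_left h2 (Nat.cast_nonneg (α := ℤ) (G m d).totalDegree)
    refine h3.trans (le_of_eq ?_)
    push_cast
    ring
  have hp0 : 0 ≤ pht k y' := by
    have h2 := hgt_le_pht (k := k) y' hi0' hi0'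
    rw [div_self hi0', hgt_one] at h2
    exact h2
  have h2 : hgt k (MvPolynomial.aeval (fun i => y' i / y' i0) (G m (D m))) +
      ∑ d ∈ Finset.range (D m), hgt k (MvPolynomial.aeval (fun i => y' i / y' i0) (G m d)) =
      ∑ d ∈ Finset.range (D m + 1), hgt k (MvPolynomial.aeval (fun i => y' i / y' i0) (G m d)) := by
    rw [Finset.sum_range_succ, add_comm]
  rw [h2] at h1
  refine h1.trans ((Finset.sum_le_sum fun d _ => hpoly d).trans ?_)
  rw [← Finset.sum_mul]
  refine mul_le_mul_of_nonneg_right ?_ hp0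
  rw [← Nat.cast_sum]
  exact_mod_cast Finset.single_le_sum
    (f := fun m => ∑ j ∈ Finset.range (D m + 1), (G m j).totalDegree * (n + 1))
    (fun _ _ => Nat.zero_le _) (Finset.mem_univ m)

end Pool.Agent.Y221.PB
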