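import Pool.Agent.Y221.PB.Dom
import Pool.Agent.Y221.AH.Top
import Pool.Agent.W856.RG.ORB

/-!
Rational curves through the general points of a variety: the degrees of the morphisms from the
projective line, and of the morphisms with a given value, are not bounded.
-/

set_option autoImplicit false
set_option maxHeartbeats 400000
set_option linter.overlappingInstances false
set_option linter.unusedSectionVars false

open FF IntermediateField Pool.Agent.W603.LV
open scoped LinearAlgebra.Projectivization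

namespace Pool.Agent.Y221.PB

open Pool.Agent.W602.GT Pool.Agent.W602.RG Pool.Agent.Y221.AH
open Pool.Agent.W603.PV (pht pht_le pord_le)
open Pool.Agent.W603.CX (hgt_le_pht)
open Pool.Agent.Y216 (OnVar CurveBound)

/-- Outside a proper closed subset of the projective variety with generic point `x`, the degrees of
the morphisms from every smooth projective curve to the variety are bounded. -/
def PseudoBounded (k : Type) [Field k] {L : Type} [Field L] [Algebra k L] {M : ℕ}
    (x : Fin (M + 1) → L) : Prop :=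
  ∃ G : MvPolynomial (Fin (M + 1)) k, IsForm G ∧ val x G ≠ 0 ∧
    ∀ (E : Type) [Field E] [Algebra k E] [IsFF k E], ∃ D : ℤ, ∀ f : Fin (M + 1) → E,
      OnVar k x f → val f G ≠ 0 → pht k f ≤ D

theorem bounded_of_curve {k : Type} [Field k] {L : Type} [Field L] [Algebra k L] {M : ℕ}
    {x : Fin (M + 1) → L} (h : CurveBound k x) : PseudoBounded k x := by
  obtain ⟨G, hG, hGx, B, hB⟩ := h
  exact ⟨G, hG, hGx, fun E _ _ _ => ⟨_, fun f hf hfG => hB E f hf hfG⟩⟩

/-- `P` is a nonconstant rational curve through the point `p` of the variety with generic point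
`x`. -/
structure RatThrough {k : Type} [Field k] {L : Type} [Field L] [Algebra k L] {M : ℕ}
    (x : Fin (M + 1) → L) (p : Fin (M + 1) → k) (P : Fin (M + 1) → Polynomial k) : Prop where
  mem : ∀ G : MvPolynomial (Fin (M + 1)) k, IsForm G → val x G = 0 →
    MvPolynomial.aeval P G = 0
  pt : ∀ i, (P i).eval 0 = p i
  ne : p ≠ 0
  nonconst : ∃ i j a b, (P i).eval a * (P j).eval b ≠ (P j).eval a * (P i).eval b

variable {k : Type} [Field k] [IsAlgClosed k] [CharZero k] {M : ℕ}

theorem aeval_poly {A : Type} [Field A] [Algebra k A] (P : Fin (M + 1) → Polynomial k) (t : A)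
    (G : MvPolynomial (Fin (M + 1)) k) :
    val (fun i => Polynomial.aeval t (P i)) G = Polynomial.aeval t (MvPolynomial.aeval P G) := by
  unfold Pool.Agent.W602.GT.val
  exact (MvPolynomial.comp_aeval_apply P (Polynomial.aeval t : Polynomial k →ₐ[k] A) G).symm

/-- the curves have large degree -/
theorem big_deg {P : Fin (M + 1) → Polynomial k} {i j : Fin (M + 1)} {a b : k}
    (hij : (P i).eval a * (P j).eval b ≠ (P j).eval a * (P i).eval b) {q : ℕ} (hq : q ≠ 0) :
    Polynomial.aeval ((RatFunc.X : RatFunc k) ^ q) (P i) ≠ 0 ∧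
      Polynomial.aeval ((RatFunc.X : RatFunc k) ^ q) (P j) ≠ 0 ∧
      (q : ℤ) ≤ hgt k (Polynomial.aeval ((RatFunc.X : RatFunc k) ^ q) (P i) /
        Polynomial.aeval ((RatFunc.X : RatFunc k) ^ q) (P j)) := by
  have hinf : Infinite k := inferInstance
  obtain ⟨T, hTd⟩ : ∃ T : RatFunc k, T = RatFunc.X := ⟨_, rfl⟩
  rw [← hTd]
  have hTt : Transcendental k T := hTd ▸ RatFunc.transcendental_X
  have hT0 : T ≠ 0 := by rw [hTd]; exact RatFunc.X_ne_zero
  have hT1 : 1 ≤ hgt k T := by
    by_contra hcon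
    obtain ⟨c, hc⟩ := const_of_hgt (k := k) (f := T) (by omega)
    exact hTt (hc ▸ isAlgebraic_algebraMap c)
  have hTq : Transcendental k (T ^ q) := hTt.pow (by omega)
  let y : Fin (M + 1) → RatFunc k := fun l => Polynomial.aeval (T ^ q) (P l)
  have hyT : ∀ l, y l = Polynomial.aeval (T ^ q) (P l) := fun _ => rfl
  have hPj : P j ≠ 0 := by
    intro h0
    apply hij
    rw [h0]
    simp
  have hPi : P i ≠ 0 := by
    intro h0
    apply hij
    rw [h0]
    simp
  have hcinj : ∀ p : Polynomial k, Polynomial.aeval (T ^ q) p = 0 → p = 0 := fun p hp =>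
    (transcendental_iff_injective.1 hTq) (by rw [hp, map_zero])
  have hyj : y j ≠ 0 := fun h0 => hPj (hcinj _ (by rw [← hyT]; exact h0))
  have hyi : y i ≠ 0 := fun h0 => hPi (hcinj _ (by rw [← hyT]; exact h0))
  refine ⟨hyi, hyj, ?_⟩
  have hg : Transcendental k (y i / y j) := by
    intro halg
    have h2 := IsAlgClosed.degree_eq_one_of_irreducible k (minpoly.irreducible halg.isIntegral)
    obtain ⟨c, hc⟩ := minpoly.mem_range_of_degree_eq_one k _ h2
    have h3 : y i = algebraMap k (RatFunc k) c * y j := by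
      have hc' : algebraMap k (RatFunc k) c = y i / y j := hc
      rw [hc']
      field_simp
    have h4 : P i = Polynomial.C c * P j := by
      have h5 := hcinj (P i - Polynomial.C c * P j) (by
        rw [map_sub, map_mul, Polynomial.aeval_C, ← hyT, ← hyT, h3, sub_self])
      exact sub_eq_zero.1 h5
    apply hij
    rw [h4]
    simp only [Polynomial.eval_mul, Polynomial.eval_C]
    ring
  have hmemk : y i / y j ∈ k⟮T ^ q⟯ := by
    have h1 : ∀ l, y l ∈ k⟮T ^ q⟯ := by
      intro l
      rw [hyT]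
      have h2 := (Polynomial.aeval (⟨T ^ q, mem_adjoin_simple_self k (T ^ q)⟩ : k⟮T ^ q⟯) (P l)).2
      rw [Polynomial.aeval_eq_sum_range] at h2 ⊢
      refine sum_mem fun a _ => ?_
      exact (k⟮T ^ q⟯).smul_mem (_root_.pow_mem (mem_adjoin_simple_self k (T ^ q)) _)
    exact div_mem (h1 i) (h1 j)
  have h3 := hgt_sub_ge hTq hg hmemk
  rw [hgt_pow hT0] at h3
  have h4 : (q : ℤ) ≤ q * hgt k T := by nlinarith [(Nat.cast_nonneg q : (0 : ℤ) ≤ q)]
  exact h4.trans h3

variable {L : Type} [Field L] [Algebra k L] {x : Fin (M + 1) → L}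

/-- **Rational curves through a point.** -/
theorem RatThrough.maps {p : Fin (M + 1) → k} {P : Fin (M + 1) → Polynomial k}
    (h : RatThrough x p P) : ∃ (c : Place k (RatFunc k)) (i j : Fin (M + 1)), ∀ q : ℕ, q ≠ 0 →
      OnVar k x (fun l => Polynomial.aeval ((RatFunc.X : RatFunc k) ^ q) (P l)) ∧
      HasValue c p (fun l => Polynomial.aeval ((RatFunc.X : RatFunc k) ^ q) (P l)) ∧
      (∀ G : MvPolynomial (Fin (M + 1)) k, val p G ≠ 0 →
        val (fun l => Polynomial.aeval ((RatFunc.X : RatFunc k) ^ q) (P l)) G ≠ 0) ∧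
      Polynomial.aeval ((RatFunc.X : RatFunc k) ^ q) (P i) ≠ 0 ∧
      Polynomial.aeval ((RatFunc.X : RatFunc k) ^ q) (P j) ≠ 0 ∧
      (q : ℤ) ≤ hgt k (Polynomial.aeval ((RatFunc.X : RatFunc k) ^ q) (P i) /
        Polynomial.aeval ((RatFunc.X : RatFunc k) ^ q) (P j)) := by
  obtain ⟨T, hTd⟩ : ∃ T : RatFunc k, T = RatFunc.X := ⟨_, rfl⟩
  have hTt : Transcendental k T := hTd ▸ RatFunc.transcendental_X
  have hT0 : T ≠ 0 := by rw [hTd]; exact RatFunc.X_ne_zero
  obtain ⟨c, hc⟩ := Pool.Agent.W856.RG.Orb.exists_zero (k := k) hTt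
  obtain ⟨i, j, a, b, hij⟩ := h.nonconst
  refine ⟨c, i, j, fun q hq => ?_⟩
  obtain ⟨hyi, hyj, hbig⟩ := big_deg hij hq
  rw [← hTd] at hyi hyj hbig ⊢
  have hTq : Transcendental k (T ^ q) := hTt.pow (by omega)
  have hcinj : ∀ p : Polynomial k, Polynomial.aeval (T ^ q) p = 0 → p = 0 := fun p hp =>
    (transcendental_iff_injective.1 hTq) (by rw [hp, map_zero])
  refine ⟨⟨⟨i, hyi⟩, fun G hG hGx => ?_⟩, ?_, fun G hG h0 => ?_, hyi, hyj, hbig⟩
  · rw [aeval_poly, h.mem G hG hGx, map_zero]
  · -- the value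
    have hpow : 0 < c.ord (T ^ q) := by
      rw [c.ord_pow]
      have : (0 : ℤ) < q := by exact_mod_cast Nat.pos_of_ne_zero hq
      positivity
    have hTG : Ge c 0 (T ^ q) := Or.inr hpow.le
    have hQ : ∀ l, ∃ Q : Polynomial k, P l = Polynomial.C (p l) + Polynomial.X * Q := by
      intro l
      refine ⟨(P l).divX, ?_⟩
      conv_lhs => rw [← Polynomial.divX_mul_X_add (P l)]
      rw [← h.pt l, ← Polynomial.coeff_zero_eq_eval_zero]
      ring
    choose Q hQ using hQ
    have hy : ∀ l, Polynomial.aeval (T ^ q) (P l) =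
        algebraMap k (RatFunc k) (p l) + T ^ q * Polynomial.aeval (T ^ q) (Q l) := by
      intro l
      rw [hQ l, map_add, map_mul, Polynomial.aeval_C, Polynomial.aeval_X]
    have hQG : ∀ l, Ge c 0 (Polynomial.aeval (T ^ q) (Q l)) := by
      intro l
      rw [Polynomial.aeval_eq_sum_range]
      refine Ge.sum _ _ fun d _ => ?_
      rw [Algebra.smul_def]
      have h1 := (Ge.const (P := c) ((Q l).coeff d)).mul (hTG.pow d)
      exact h1.mono (by simp)
    intro i1 j1
    have h1 : algebraMap k (RatFunc k) (p i1) * Polynomial.aeval (T ^ q) (P j1) -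
        algebraMap k (RatFunc k) (p j1) * Polynomial.aeval (T ^ q) (P i1) =
        T ^ q * (algebraMap k (RatFunc k) (p i1) * Polynomial.aeval (T ^ q) (Q j1) -
          algebraMap k (RatFunc k) (p j1) * Polynomial.aeval (T ^ q) (Q i1)) := by
      rw [hy, hy]
      ring
    rw [h1]
    have h2 : Ge c 0 (algebraMap k (RatFunc k) (p i1) * Polynomial.aeval (T ^ q) (Q j1) -
          algebraMap k (RatFunc k) (p j1) * Polynomial.aeval (T ^ q) (Q i1)) := by
      have h3 := ((Ge.const (P := c) (p i1)).mul (hQG j1)).sub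
        ((Ge.const (P := c) (p j1)).mul (hQG i1))
      exact h3.mono (by simp)
    obtain ⟨l0, hl0'⟩ := Function.ne_iff.1 h.ne
    have hl0 : p l0 ≠ 0 := hl0'
    -- the coordinate `l0`
    have hunit : Polynomial.aeval (T ^ q) (P l0) ≠ 0 ∧
        c.ord (Polynomial.aeval (T ^ q) (P l0)) = 0 := by
      have h4 : algebraMap k (RatFunc k) (p l0) ≠ 0 := by rwa [Ne, map_eq_zero]
      rw [hy]
      by_cases h5 : T ^ q * Polynomial.aeval (T ^ q) (Q l0) = 0
      · rw [h5, add_zero]
        exact ⟨h4, c.ord_const hl0⟩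
      · have h6 : 0 < c.ord (T ^ q * Polynomial.aeval (T ^ q) (Q l0)) := by
          have h7 := right_ne_zero_of_mul h5
          rw [c.ord_mul (pow_ne_zero _ hT0) h7]
          have h8 := (hQG l0).resolve_left h7
          omega
        have h9 := c.ord_add_eq (f := algebraMap k (RatFunc k) (p l0)) h4 h5
          (by rw [c.ord_const hl0]; exact h6)
        exact ⟨h9.1, by rw [h9.2, c.ord_const hl0]⟩
    have h10 : Pool.Agent.W603.PV.pord c (fun l => Polynomial.aeval (T ^ q) (P l)) ≤ 0 := by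
      have h11 := pord_le c (f := fun l => Polynomial.aeval (T ^ q) (P l)) (j := l0) hunit.1
      rw [hunit.2] at h11
      exact h11
    by_cases h12 : algebraMap k (RatFunc k) (p i1) * Polynomial.aeval (T ^ q) (Q j1) -
          algebraMap k (RatFunc k) (p j1) * Polynomial.aeval (T ^ q) (Q i1) = 0
    · left
      rw [h12, mul_zero]
    · right
      rw [c.ord_mul (pow_ne_zero _ hT0) h12]
      have h13 := h2.resolve_left h12
      omega
  · rw [aeval_poly] at h0
    apply hG
    have h1 := hcinj _ h0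
    have h2 : val p G = (MvPolynomial.aeval P G).eval 0 := by
      have h3 := aeval_poly P (0 : k) G
      rw [Polynomial.coe_aeval_eq_eval] at h3
      rw [← h3]
      congr 1
      funext l
      exact (h.pt l).symm
    rw [h2, h1, Polynomial.eval_zero]

/-- a variety with rational curves through general points is not pseudo-geometrically hyperbolic -/
theorem not_geom (h : ∀ G : MvPolynomial (Fin (M + 1)) k, IsForm G → val x G ≠ 0 →
    ∃ (p : Fin (M + 1) → k) (P : Fin (M + 1) → Polynomial k), RatThrough x p P ∧ val p G ≠ 0) :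
    ¬ PseudoGeomHyp k x := by
  classical
  rintro ⟨G, hG, hGx, hfin⟩
  obtain ⟨p, P, hP, hpG⟩ := h G hG hGx
  obtain ⟨c, i, j, hmaps⟩ := hP.maps
  have hpV : p ∈ VarPts k x := by
    refine ⟨hP.ne, fun H hH hHx => ?_⟩
    have h3 := aeval_poly P (0 : k) H
    rw [hP.mem H hH hHx, map_zero, Polynomial.coe_aeval_eq_eval] at h3
    rw [← h3]
    congr 1
    funext l
    exact (hP.pt l).symm
  have hf := hfin (RatFunc k) c p hpV hpG
  -- the heights of the pointed maps are bounded
  let ht : ℙ (RatFunc k) (Fin (M + 1) → RatFunc k) → ℤ := fun φ => hgt k (φ.rep i / φ.rep j)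
  obtain ⟨D, hD⟩ : ∃ D : ℤ, ∀ φ ∈ PointedMaps x c p, ht φ ≤ D := by
    obtain ⟨D, hD⟩ := (hf.image ht).bddAbove
    exact ⟨D, fun φ hφ => hD ⟨φ, hφ, rfl⟩⟩
  obtain ⟨q, hq⟩ : ∃ q : ℕ, q = D.toNat + 1 := ⟨_, rfl⟩
  obtain ⟨h1, h2, -, h3, h4, h5⟩ := hmaps q (by omega)
  have hne : (fun l => Polynomial.aeval ((RatFunc.X : RatFunc k) ^ q) (P l)) ≠ 0 :=
    fun h0 => h3 (congrFun h0 i)
  have h6 := hD (Projectivization.mk (RatFunc k) _ hne) ⟨_, hne, h1.2, h2, rfl⟩
  obtain ⟨a, ha⟩ := Projectivization.exists_smul_eq_mk_rep (RatFunc k) _ hne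
  have h7 : ht (Projectivization.mk (RatFunc k) _ hne) =
      hgt k (Polynomial.aeval ((RatFunc.X : RatFunc k) ^ q) (P i) /
        Polynomial.aeval ((RatFunc.X : RatFunc k) ^ q) (P j)) := by
    change hgt k ((Projectivization.mk (RatFunc k) _ hne).rep i /
      (Projectivization.mk (RatFunc k) _ hne).rep j) = _
    rw [← ha]
    congr 1
    simp only [Pi.smul_apply, Units.smul_def, smul_eq_mul]
    rw [mul_div_mul_left _ _ a.ne_zero]
  rw [h7] at h6
  omega

/-- a variety with rational curves through general points is not bounded -/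
theorem not_bdd (h : ∀ G : MvPolynomial (Fin (M + 1)) k, IsForm G → val x G ≠ 0 →
    ∃ (p : Fin (M + 1) → k) (P : Fin (M + 1) → Polynomial k), RatThrough x p P ∧ val p G ≠ 0) :
    ¬ PseudoBounded k x := by
  rintro ⟨G, hG, hGx, hb⟩
  obtain ⟨p, P, hP, hpG⟩ := h G hG hGx
  obtain ⟨c, i, j, hmaps⟩ := hP.maps
  obtain ⟨D, hD⟩ := hb (RatFunc k)
  obtain ⟨q, hq⟩ : ∃ q : ℕ, q = D.toNat + 1 := ⟨_, rfl⟩
  obtain ⟨h1, -, h2, h3, h4, h5⟩ := hmaps q (by omega)
  have h6 := hD _ h1 (h2 G hpG)
  have h7 := hgt_le_pht (k := k) (fun l => Polynomial.aeval ((RatFunc.X : RatFunc k) ^ q) (P l))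
    h3 h4
  omega

end Pool.Agent.Y221.PB
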