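import Pool.Agent.Y221.PB.Rat

/-!
The varieties dominated by a ruled variety have rational curves through their general points.
-/

set_option autoImplicit false
set_option maxHeartbeats 400000
set_option linter.overlappingInstances false
set_option linter.unusedSectionVars false

open FF IntermediateField

namespace Pool.Agent.Y221.PB

open Pool.Agent.W602.GT Pool.Agent.TH466.QG

variable {k : Type} [Field k] [IsAlgClosed k] [CharZero k]

/-- specialization of a polynomial point over an extension -/
theorem poly_spec {M : ℕ} {C : Type} [Field C] [Algebra k C] (P : Fin (M + 1) → Polynomial C)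
    {i j : Fin (M + 1)} {d d' : ℕ}
    (hm : (P i).coeff d * (P j).coeff d' ≠ (P j).coeff d * (P i).coeff d')
    {R : MvPolynomial (Fin (M + 1)) k} (hR : MvPolynomial.aeval P R ≠ 0) :
    ∃ p : Fin (M + 1) → Polynomial k,
      (∀ G : MvPolynomial (Fin (M + 1)) k, MvPolynomial.aeval P G = 0 →
        MvPolynomial.aeval p G = 0) ∧ MvPolynomial.aeval p R ≠ 0 ∧
      (p i).coeff d * (p j).coeff d' ≠ (p j).coeff d * (p i).coeff d' := by
  classical
  obtain ⟨D, hD⟩ : ∃ D, ∀ i, (P i).natDegree < D := by
    refine ⟨∑ i, (P i).natDegree + 1, fun i => ?_⟩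
    have := Finset.single_le_sum (f := fun i => (P i).natDegree) (fun _ _ => Nat.zero_le _)
      (Finset.mem_univ i)
    exact Nat.lt_succ_of_le this
  let σ : Type := Fin (M + 1) × Fin D
  let z : σ → C := fun q => (P q.1).coeff q.2
  let PP : Fin (M + 1) → Polynomial (MvPolynomial σ k) := fun i =>
    ∑ l : Fin D, Polynomial.C (MvPolynomial.X (i, l)) * Polynomial.X ^ (l : ℕ)
  let ev : ∀ (A : Type) [Field A] [Algebra k A] (u : σ → A),
      Polynomial (MvPolynomial σ k) →ₐ[k] Polynomial A := fun A _ _ u =>
    Polynomial.mapAlgHom (MvPolynomial.aeval u)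
  have hevP : ∀ i, ev C z (PP i) = P i := by
    intro i
    simp only [ev, PP, z]
    rw [map_sum, Polynomial.as_sum_range' (P i) D (hD i), ← Fin.sum_univ_eq_sum_range
      (fun l => Polynomial.monomial l ((P i).coeff l))]
    refine Finset.sum_congr rfl fun l _ => ?_
    rw [map_mul, map_pow, Polynomial.coe_mapAlgHom, Polynomial.map_C, Polynomial.map_X,
      ← Polynomial.C_mul_X_pow_eq_monomial]
    simp
  have hcomp : ∀ (A : Type) [Field A] [Algebra k A] (u : σ → A)
      (G : MvPolynomial (Fin (M + 1)) k), ev A u (MvPolynomial.aeval PP G) =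
        MvPolynomial.aeval (fun i => ev A u (PP i)) G := by
    intro A _ _ u G
    have h1 : (ev A u).comp (MvPolynomial.aeval PP) =
        MvPolynomial.aeval (fun i => ev A u (PP i)) := by
      apply MvPolynomial.algHom_ext
      intro i
      rw [AlgHom.comp_apply, MvPolynomial.aeval_X, MvPolynomial.aeval_X]
    exact DFunLike.congr_fun h1 G
  have hco : ∀ (A : Type) [Field A] [Algebra k A] (u : σ → A) (Q : Polynomial (MvPolynomial σ k))
      (l : ℕ), (ev A u Q).coeff l = MvPolynomial.aeval u (Q.coeff l) := by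
    intro A _ _ u Q l
    simp only [ev]
    rw [Polynomial.coe_mapAlgHom, Polynomial.coeff_map]
    rfl
  have hPc : (fun i => ev C z (PP i)) = P := funext hevP
  obtain ⟨l, hl⟩ : ∃ l, MvPolynomial.aeval z ((MvPolynomial.aeval PP R).coeff l) ≠ 0 := by
    by_contra hcon
    push Not at hcon
    apply hR
    rw [← hPc, ← hcomp]
    ext l
    rw [hco, hcon l, Polynomial.coeff_zero]
  obtain ⟨H, hH⟩ : ∃ H : MvPolynomial σ k, H = (MvPolynomial.aeval PP R).coeff l *
    ((PP i).coeff d * (PP j).coeff d' - (PP j).coeff d * (PP i).coeff d') := ⟨_, rfl⟩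
  have hH0 : MvPolynomial.aeval z H ≠ 0 := by
    rw [hH, map_mul, map_sub, map_mul, map_mul, ← hco C z (PP i), ← hco C z (PP j),
      ← hco C z (PP j), ← hco C z (PP i), hevP, hevP]
    exact mul_ne_zero hl (sub_ne_zero.2 hm)
  obtain ⟨z0, hz0, hrel⟩ := specialise z H hH0
  rw [hH, map_mul, map_sub, map_mul, map_mul, ← hco k z0 (PP i), ← hco k z0 (PP j),
      ← hco k z0 (PP j), ← hco k z0 (PP i)] at hz0
  refine ⟨fun i => ev k z0 (PP i), fun G hG => ?_, fun h0 => ?_, ?_⟩
  · rw [← hcomp]
    ext l
    rw [hco, Polynomial.coeff_zero]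
    apply hrel
    rw [← hco, hcomp, hPc, hG, Polynomial.coeff_zero]
  · apply left_ne_zero_of_mul hz0
    rw [← hco, hcomp, h0, Polynomial.coeff_zero]
  · exact sub_ne_zero.1 (right_ne_zero_of_mul hz0)

/-- **Rational curves through the general points of the varieties dominated by a ruled variety.** -/
theorem rat_of_ruled {K L : Type} [Field K] [Field L] [Algebra k K] [Algebra k L] [Algebra L K]
    [IsScalarTower k L K] [Algebra.IsAlgebraic L K] (hR : Ruled k K) {M : ℕ}
    {x : Fin (M + 1) → L} (hx : x ≠ 0) (hgen : coords k x = ⊤)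
    {R : MvPolynomial (Fin (M + 1)) k} (hRf : IsForm R) (hRx : val x R ≠ 0) :
    ∃ (p : Fin (M + 1) → k) (P : Fin (M + 1) → Polynomial k),
      RatThrough x p P ∧ val p R ≠ 0 := by
  classical
  obtain ⟨C, σ, hσ, htop⟩ := hR
  obtain ⟨i1, hi1'⟩ := Function.ne_iff.1 hx
  have hi1 : x i1 ≠ 0 := hi1'
  -- a coordinate which is not in `C`
  obtain ⟨i2, hi2⟩ : ∃ i, algebraMap L K (x i / x i1) ∉ C := by
    by_contra hcon
    push Not at hcon
    have h1 : Algebra.IsAlgebraic C K := alg_over (adjoin_norm hgen hi1) C fun m =>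
      isAlgebraic_algebraMap (⟨_, hcon m⟩ : C)
    exact hσ (h1.isAlgebraic σ)
  -- polynomials
  have hrep : ∀ i, ∃ r s : Polynomial C, Polynomial.aeval σ s ≠ 0 ∧
      algebraMap L K (x i / x i1) * Polynomial.aeval σ s = Polynomial.aeval σ r := by
    intro i
    have h1 : algebraMap L K (x i / x i1) ∈ C⟮σ⟯ := by
      rw [htop]
      exact IntermediateField.mem_top
    obtain ⟨r, s, h2⟩ := IntermediateField.mem_adjoin_simple_iff C _ |>.1 h1
    by_cases h3 : Polynomial.aeval σ s = 0
    · refine ⟨0, 1, by simp, ?_⟩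
      rw [h2, h3, div_zero, zero_mul, map_zero]
    · refine ⟨r, s, h3, ?_⟩
      rw [h2]
      field_simp
  choose r s hs hrs using hrep
  let Q : Polynomial C := ∏ j, s j
  let P : Fin (M + 1) → Polynomial C := fun i => r i * ∏ j ∈ Finset.univ.erase i, s j
  have hQ : ∀ i, Q = s i * ∏ j ∈ Finset.univ.erase i, s j := fun i =>
    (Finset.mul_prod_erase _ _ (Finset.mem_univ i)).symm
  have hQ0 : Polynomial.aeval σ Q ≠ 0 := by
    simp only [Q]
    rw [map_prod]
    exact Finset.prod_ne_zero_iff.2 fun j _ => hs j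
  have hPQ : ∀ i, Polynomial.aeval σ (P i) =
      Polynomial.aeval σ Q * algebraMap L K (x i / x i1) := by
    intro i
    simp only [P]
    rw [hQ i, map_mul, map_mul, ← hrs i]
    ring
  have hinj : Function.Injective (Polynomial.aeval σ : Polynomial C →ₐ[C] K) :=
    transcendental_iff_injective.1 hσ
  have hPi1 : P i1 = Q := by
    apply hinj
    rw [hPQ, div_self hi1, map_one, mul_one]
  -- forms
  have hval : ∀ (G : MvPolynomial (Fin (M + 1)) k) {d : ℕ}, G.IsHomogeneous d →
      Polynomial.aeval σ (MvPolynomial.aeval P G) =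
        (Polynomial.aeval σ Q / algebraMap L K (x i1)) ^ d * algebraMap L K (val x G) := by
    intro G d hG
    have h1 : ((Polynomial.aeval σ : Polynomial C →ₐ[C] K).restrictScalars k).comp
        (MvPolynomial.aeval P) = MvPolynomial.aeval fun i => Polynomial.aeval σ (P i) := by
      apply MvPolynomial.algHom_ext
      intro i
      rw [AlgHom.comp_apply, MvPolynomial.aeval_X, MvPolynomial.aeval_X]
      rfl
    have h2 := DFunLike.congr_fun h1 G
    have h3 : (fun i => Polynomial.aeval σ (P i)) =
        fun i => (Polynomial.aeval σ Q / algebraMap L K (x i1)) * algebraMap L K (x i) := by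
      funext i
      rw [hPQ, map_div₀]
      ring
    rw [h3] at h2
    refine Eq.trans h2 ?_
    have h4 := val_smul (L := K) hG (Polynomial.aeval σ Q / algebraMap L K (x i1))
      (fun i => algebraMap L K (x i))
    refine Eq.trans h4 ?_
    congr 1
    unfold Pool.Agent.W602.GT.val
    exact MvPolynomial.aeval_algebraMap_apply K x G
  have hc0 : Polynomial.aeval σ Q / algebraMap L K (x i1) ≠ 0 :=
    div_ne_zero hQ0 ((map_ne_zero _).2 hi1)
  have hzero : ∀ G : MvPolynomial (Fin (M + 1)) k, IsForm G →
      (MvPolynomial.aeval P G = 0 ↔ val x G = 0) := by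
    rintro G ⟨d, hG⟩
    constructor
    · intro h
      have h1 := hval G hG
      rw [h, map_zero] at h1
      have h2 := (mul_eq_zero.1 h1.symm).resolve_left (pow_ne_zero _ hc0)
      exact (map_eq_zero _).1 h2
    · intro h
      apply hinj
      rw [hval G hG, h, map_zero, mul_zero, map_zero]
  -- a minor
  obtain ⟨d, d', hm⟩ : ∃ d d', (P i2).coeff d * (P i1).coeff d' ≠
      (P i1).coeff d * (P i2).coeff d' := by
    by_contra hcon
    push Not at hcon
    apply hi2
    have hQ' : P i1 ≠ 0 := by
      rw [hPi1]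
      rintro h0
      rw [h0, map_zero] at hQ0
      exact hQ0 rfl
    obtain ⟨d', hd'⟩ : ∃ d', (P i1).coeff d' ≠ 0 := by
      by_contra h
      push Not at h
      exact hQ' (Polynomial.ext fun l => by rw [h l, Polynomial.coeff_zero])
    have h1 : P i2 = Polynomial.C ((P i2).coeff d' / (P i1).coeff d') * P i1 := by
      ext1 l
      rw [Polynomial.coeff_C_mul]
      have := hcon l d'
      field_simp
      linear_combination this
    have h2 : Polynomial.aeval σ (P i2) = algebraMap C K ((P i2).coeff d' / (P i1).coeff d') *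
        Polynomial.aeval σ (P i1) := by
      have h3 := congrArg (Polynomial.aeval σ) h1
      refine h3.trans ?_
      rw [map_mul (Polynomial.aeval σ), Polynomial.aeval_C]
    rw [hPQ i2, hPi1] at h2
    have h3 : algebraMap L K (x i2 / x i1) =
        algebraMap C K ((P i2).coeff d' / Q.coeff d') := by
      apply mul_left_cancel₀ hQ0
      rw [h2]
      ring
    rw [h3]
    exact ((P i2).coeff d' / Q.coeff d').2
  have hRX : IsForm (R * MvPolynomial.X i1) := by
    obtain ⟨d, hd⟩ := hRf
    exact ⟨d + 1, hd.mul (MvPolynomial.isHomogeneous_X k i1)⟩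
  have hRXx : val x (R * MvPolynomial.X i1) ≠ 0 := by
    have h1 : val x (R * MvPolynomial.X i1) = val x R * x i1 := by
      unfold Pool.Agent.W602.GT.val
      rw [map_mul, MvPolynomial.aeval_X]
    rw [h1]
    exact mul_ne_zero hRx hi1
  obtain ⟨p, hp1, hp2, hp3⟩ := poly_spec P hm (R := R * MvPolynomial.X i1)
    (fun h0 => hRXx ((hzero _ hRX).1 h0))
  -- nonconstant
  have hab : ∃ a b, (p i2).eval a * (p i1).eval b ≠ (p i1).eval a * (p i2).eval b := by
    by_contra hcon
    push Not at hcon
    apply hp3
    by_cases h0 : p i1 = 0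
    · rw [h0]
      simp
    · obtain ⟨b, hb⟩ : ∃ b, (p i1).eval b ≠ 0 := by
        by_contra h
        push Not at h
        exact h0 (Polynomial.funext fun t => by rw [h t, Polynomial.eval_zero])
      have h1 : p i2 = Polynomial.C ((p i2).eval b / (p i1).eval b) * p i1 := by
        apply Polynomial.funext
        intro t
        rw [Polynomial.eval_mul, Polynomial.eval_C]
        have := hcon t b
        field_simp
        linear_combination this
      rw [h1, Polynomial.coeff_C_mul, Polynomial.coeff_C_mul]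
      ring
  obtain ⟨a, b, hab⟩ := hab
  -- a point with `R ≠ 0`
  obtain ⟨t0, ht0'⟩ : ∃ t0, (MvPolynomial.aeval p (R * MvPolynomial.X i1)).eval t0 ≠ 0 := by
    by_contra hcon
    push Not at hcon
    exact hp2 (Polynomial.funext fun t => by rw [hcon t, Polynomial.eval_zero])
  rw [map_mul, MvPolynomial.aeval_X, Polynomial.eval_mul] at ht0'
  have ht0 : (MvPolynomial.aeval p R).eval t0 ≠ 0 := left_ne_zero_of_mul ht0'
  have ht1 : (p i1).eval t0 ≠ 0 := right_ne_zero_of_mul ht0'
  let P' : Fin (M + 1) → Polynomial k := fun l => (p l).comp (Polynomial.X + Polynomial.C t0)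
  have hev : ∀ l t, (P' l).eval t = (p l).eval (t + t0) := by
    intro l t
    simp only [P', Polynomial.eval_comp, Polynomial.eval_add, Polynomial.eval_X,
      Polynomial.eval_C]
  have hval0 : ∀ G : MvPolynomial (Fin (M + 1)) k,
      val (fun l => (p l).eval t0) G = (MvPolynomial.aeval p G).eval t0 := by
    intro G
    have h3 := aeval_poly p t0 G
    rw [Polynomial.coe_aeval_eq_eval] at h3
    exact h3
  have hpR : val (fun l => (p l).eval t0) R ≠ 0 := by
    rw [hval0]
    exact ht0
  have hcompP : ∀ G : MvPolynomial (Fin (M + 1)) k, MvPolynomial.aeval P' G =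
      (MvPolynomial.aeval p G).comp (Polynomial.X + Polynomial.C t0) := by
    intro G
    have h3 : (Polynomial.aeval (R := k) (Polynomial.X + Polynomial.C t0 : Polynomial k)).comp
        (MvPolynomial.aeval p) = MvPolynomial.aeval P' := by
      apply MvPolynomial.algHom_ext
      intro i
      rw [AlgHom.comp_apply, MvPolynomial.aeval_X, MvPolynomial.aeval_X]
      simp only [P']
      rw [Polynomial.comp_eq_aeval]
    rw [Polynomial.comp_eq_aeval]
    exact (DFunLike.congr_fun h3 G).symm
  refine ⟨fun l => (p l).eval t0, P', ⟨fun G hG hxG => ?_, fun l => ?_, fun h0 => ?_,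
    ⟨i2, i1, a - t0, b - t0, ?_⟩⟩, hpR⟩
  · rw [hcompP, hp1 G ((hzero G hG).2 hxG), Polynomial.zero_comp]
  · rw [hev, zero_add]
  · exact ht1 (congrFun h0 i1)
  · rw [hev, hev, hev, hev, sub_add_cancel, sub_add_cancel]
    exact hab

end Pool.Agent.Y221.PB
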